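import Pool.Agent.J4H13.PL.Jobs

/-!
# Project PL, jobs ALT and NZ
-/

set_option autoImplicit false

namespace Pool.Agent.J4H52.PL

open Pool.Agent.J4H13.PL

section

variable {K : Type} [Field K] [Algebra ℂ K] {I : Type} [Fintype I] [DecidableEq I] {r : I → ℕ}

theorem TM_zero (Y : (i : I) → Fin (r i + 1) → K) (D : ((i : I) × Fin (r i)) → Derivation ℂ K K)
    (a : (i : I) × Fin (r i + 1)) (j : I) :
    TM Y D a ⟨j, 0⟩ = if a.1 = j then Y a.1 a.2 else 0 := rfl

theorem TM_succ (Y : (i : I) → Fin (r i + 1) → K) (D : ((i : I) × Fin (r i)) → Derivation ℂ K K)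
    (a : (i : I) × Fin (r i + 1)) (j : I) (k : Fin (r j)) :
    TM Y D a ⟨j, k.succ⟩ = D ⟨j, k⟩ (Y a.1 a.2) := rfl

theorem TM_update (Y : (i : I) → Fin (r i + 1) → K) (inst : DecidableEq ((i : I) × Fin (r i)))
    (D : ((i : I) × Fin (r i)) → Derivation ℂ K K) (p : (i : I) × Fin (r i))
    (x : Derivation ℂ K K) :
    TM Y (@Function.update _ _ inst D p x) =
      (TM Y D).updateCol ⟨p.1, p.2.succ⟩ (fun a => x (Y a.1 a.2)) := by
  ext a b
  obtain ⟨j, k⟩ := b
  refine Fin.cases ?_ (fun k => ?_) k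
  · rw [Matrix.updateCol_ne]
    · rfl
    · intro h
      obtain ⟨h1, h2⟩ := Sigma.mk.inj_iff.1 h
      subst h1
      exact (Fin.succ_ne_zero _ (eq_of_heq h2).symm)
  · rw [TM_succ]
    by_cases h : (⟨j, k⟩ : (i : I) × Fin (r i)) = p
    · subst h
      rw [Function.update_self, Matrix.updateCol_self]
    · rw [Function.update_of_ne h, Matrix.updateCol_ne, TM_succ]
      intro h1
      apply h
      obtain ⟨p1, p2⟩ := p
      obtain ⟨h2, h3⟩ := Sigma.mk.inj_iff.1 h1
      subst h2
      rw [Fin.succ_injective _ (eq_of_heq h3)]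

end

theorem t_ALT : S_ALT := by
  intro K _ _ I _ _ r Y
  refine ⟨{ toFun := fun D => TT Y D, map_update_add' := ?_, map_update_smul' := ?_,
            map_eq_zero_of_eq' := ?_ }, fun D => rfl⟩
  · intro inst D p x y
    unfold TT
    simp only [TM_update]
    rw [← Matrix.det_updateCol_add]
    rfl
  · intro inst D p c x
    unfold TT
    simp only [TM_update]
    rw [smul_eq_mul, ← Matrix.det_updateCol_smul]
    rfl
  · intro D p q hpq hne
    unfold TT
    refine Matrix.det_zero_of_column_eq (i := ⟨p.1, p.2.succ⟩) (j := ⟨q.1, q.2.succ⟩) ?_ ?_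
    · intro h1
      apply hne
      obtain ⟨p1, p2⟩ := p
      obtain ⟨q1, q2⟩ := q
      obtain ⟨h2, h3⟩ := Sigma.mk.inj_iff.1 h1
      change p1 = q1 at h2
      subst h2
      exact Sigma.ext rfl (heq_of_eq (Fin.succ_injective _ (eq_of_heq h3)))
    · intro a
      rw [TM_succ, TM_succ]
      exact congrArg (fun d : Derivation ℂ K K => d (Y a.1 a.2)) hpq

theorem t_NZ : S_NZ := by
  intro hS K _ _ I _ _ r Y hY0 hY
  obtain ⟨D, h1, h2⟩ := H693RF.RG.exists_dual_derivations (𝕜 := ℂ) _ hY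
  refine ⟨D, fun h0 => ?_⟩
  set Y' : (i : I) → Fin (r i + 1) → K := fun i k => Y i k / Y i 0 with hY'
  have hs := hS K I r Y Y' (fun i => 1) (fun i => (Y i 0)⁻¹) (fun i => inv_ne_zero (hY0 i)) (by
    intro i k
    rw [Finset.sum_eq_single k]
    · rw [Matrix.one_apply_eq, map_one, one_mul, hY']
      simp only
      rw [div_eq_inv_mul]
    · intro j _ hj
      rw [Matrix.one_apply_ne (Ne.symm hj), map_zero, zero_mul]
    · intro h
      exact absurd (Finset.mem_univ _) h) D
  rw [h0, mul_zero] at hs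
  unfold TT at hs
  obtain ⟨v, hv, hv2⟩ := Matrix.exists_mulVec_eq_zero_iff.2 hs
  have hY1 : ∀ i, Y' i 0 = 1 := fun i => div_self (hY0 i)
  have hv0 : ∀ i, v ⟨i, 0⟩ = 0 := by
    intro i
    have e := congrFun hv2 ⟨i, 0⟩
    rw [Matrix.mulVec, dotProduct, Finset.sum_eq_single (⟨i, 0⟩ : (i : I) × Fin (r i + 1)),
      TM_zero] at e
    · simpa [hY1] using e
    · rintro ⟨j, k⟩ _ hne
      refine Fin.cases (fun hne => ?_) (fun k hne => ?_) k hne
      · rw [TM_zero, if_neg, zero_mul]
        rintro rfl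
        exact hne rfl
      · rw [TM_succ]
        simp only [hY1]
        rw [Derivation.map_one_eq_zero, zero_mul]
    · intro h
      exact absurd (Finset.mem_univ _) h
  apply hv
  funext a
  obtain ⟨i, m⟩ := a
  refine Fin.cases (hv0 i) (fun m => ?_) m
  have e := congrFun hv2 ⟨i, m.succ⟩
  rw [Matrix.mulVec, dotProduct, Finset.sum_eq_single (⟨i, m.succ⟩ : (i : I) × Fin (r i + 1)),
    TM_succ] at e
  · have := h1 ⟨i, m⟩
    simp only at this
    rw [hY'] at e
    simp only at e
    rw [this, one_mul] at e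
    exact e
  · rintro ⟨j, k⟩ _ hne
    refine Fin.cases (fun hne => ?_) (fun k hne => ?_) k hne
    · rw [hv0, mul_zero]
    · rw [TM_succ]
      have h3 := h2 ⟨j, k⟩ ⟨i, m⟩ (by
        intro h
        apply hne
        obtain ⟨h4, h5⟩ := Sigma.mk.inj_iff.1 h
        subst h4
        rw [eq_of_heq h5])
      simp only at h3
      rw [hY']
      simp only
      rw [h3, zero_mul]
  · intro h
    exact absurd (Finset.mem_univ _) h

end Pool.Agent.J4H52.PL
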